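import Pool.Agent.W307.SE.Stm
import Pool.Agent.W571.RT.LocM
import Pool.Agent.W342.RK2.LocL

/-! # Project SE: the local conditions for p-adic points -/

set_option autoImplicit false

namespace Pool.Agent.W85.SE

open Pool.Agent.W262.RK Pool.Agent.W307.RT Pool.Agent.W307.SE

lemma sq_trans {F : Type} [Field F] {x a b : F} (hx : x ≠ 0) (h1 : IsSquare (x * a))
    (h2 : IsSquare (x * b)) : IsSquare (a * b) := by
  obtain ⟨s, hs⟩ := h1
  obtain ⟨t, ht⟩ := h2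
  refine ⟨s * t / x, ?_⟩
  have h3 : a * b = (x * a) * (x * b) / (x * x) := by field_simp
  rw [h3, hs, ht]
  field_simp

section

variable {p : ℕ} [hp : Fact p.Prime] {D : ℤ}

lemma ndvd_mul {A : ℤ} (hD : ¬ (p : ℤ) ∣ D) (hA : ¬ (p : ℤ) ∣ A) : ¬ (p : ℤ) ∣ A * D := by
  intro h
  rcases (Nat.prime_iff_prime_int.1 hp.out).dvd_or_dvd h with h1 | h1
  · exact hA h1
  · exact hD h1

lemma ndvd_sq {A : ℤ} (hD : ¬ (p : ℤ) ∣ D) (hA : ¬ (p : ℤ) ^ 2 ∣ A) : ¬ (p : ℤ) ^ 2 ∣ A * D := by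
  intro h
  apply hA
  have hco : IsCoprime ((p : ℤ) ^ 2) D := by
    apply IsCoprime.pow_left
    exact ((Nat.prime_iff_prime_int.1 hp.out).coprime_iff_not_dvd).2 hD
  exact hco.dvd_of_dvd_mul_right h

lemma jac_mul {κ A : ℤ} {s : ℤ} (hj : jacobiSym D p = 1) (h : jacobiSym (κ * A) p = s) :
    jacobiSym (κ * (A * D)) p = s := by
  rw [← mul_assoc, jacobiSym.mul_left, hj, mul_one, h]

lemma val_mul {A : ℤ} (hD : ¬ (p : ℤ) ∣ D) (hA : A ≠ 0) :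
    padicValInt p (A * D) = padicValInt p A := by
  have hD0 : D ≠ 0 := by rintro rfl; exact hD (dvd_zero _)
  rw [padicValInt.mul hA hD0, padicValInt.eq_zero_of_not_dvd hD, add_zero]

lemma div_mul {A : ℤ} (hA : (p : ℤ) ∣ A) : A * D / p = A / p * D := by
  obtain ⟨k, rfl⟩ := hA
  have hp0 : (p : ℤ) ≠ 0 := by exact_mod_cast hp.out.ne_zero
  rw [mul_assoc, Int.mul_ediv_cancel_left _ hp0, Int.mul_ediv_cancel_left _ hp0]

lemma locM_mul {c : Fin 4} {κ A B : ℤ} (hD : ¬ (p : ℤ) ∣ D) (hj : jacobiSym D p = 1)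
    (hA : A ≠ 0) (hB : B ≠ 0) (hAB : A ≠ B) (h : LocM c κ p A B) :
    LocM c κ p (A * D) (B * D) := by
  unfold LocM at h ⊢
  have e : A * D - B * D = (A - B) * D := by ring
  split_ifs at h ⊢ with h1 h2
  · obtain ⟨a1, a2, a3, a4⟩ := h
    refine ⟨a1.mul_right D, ndvd_mul hD a2, ?_, ?_⟩
    · rw [← neg_mul]; exact jac_mul hj a3
    · rw [val_mul hD hA]; exact a4
  · obtain ⟨a1, a2, a3, a4⟩ := h
    refine ⟨a1.mul_right D, ndvd_mul hD a2, ?_, ?_⟩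
    · rw [← neg_mul]; exact jac_mul hj a3
    · rw [val_mul hD hB]; exact a4
  · obtain ⟨a1, a2, a3, a4⟩ := h
    rw [e]
    refine ⟨a1.mul_right D, ndvd_mul hD a2, jac_mul hj a3, ?_⟩
    rw [val_mul hD (sub_ne_zero.2 hAB)]; exact a4

lemma locH_mul {c : Fin 4} {κ : Fin 3 → ℤ} {neg : Bool} {A B : ℤ} (hD : ¬ (p : ℤ) ∣ D)
    (hj : jacobiSym D p = 1) (h : LocH c κ neg p A B) : LocH c κ neg p (A * D) (B * D) := by
  unfold LocH at h ⊢
  have e : A * D - B * D = (A - B) * D := by ring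
  split_ifs at h ⊢ with h1 h2 h3 h4
  · obtain ⟨a1, a2, a3, a4⟩ := h
    refine ⟨a1.mul_right D, ndvd_sq hD a2, ndvd_mul hD a3, ?_⟩
    rw [← neg_mul]; exact jac_mul hj a4
  · obtain ⟨a1, a2, a3, a4⟩ := h
    refine ⟨a1.mul_right D, ndvd_sq hD a2, ndvd_mul hD a3, ?_⟩
    rw [← neg_mul]; exact jac_mul hj a4
  · obtain ⟨a1, a2, a3, a4⟩ := h
    rw [e]
    exact ⟨a1.mul_right D, ndvd_sq hD a2, ndvd_mul hD a3, jac_mul hj a4⟩
  all_goals
    obtain ⟨a1, a2, a3, a4, a5, a6, a7, a8⟩ := h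
    rw [e, div_mul a1, div_mul a2, div_mul (dvd_sub a1 a2)]
    exact ⟨a1.mul_right D, a2.mul_right D, ndvd_sq hD a3, ndvd_sq hD a4, ndvd_sq hD a5,
      jac_mul hj a6, jac_mul hj a7, jac_mul hj a8⟩

/-- transfer of the square classes -/
lemma transfer {A B : ℤ} {x y : ℚ_[p]} {x' : ℚ} {e1 e2 : ℤ} (hy : y ≠ 0)
    (hxy : y ^ 2 = x * (x - A) * (x - B)) (h1 : IsSquare (x * ((x' : ℚ) : ℚ_[p])))
    (h2 : IsSquare ((x - A) * ((x' - (A * D : ℤ) : ℚ) : ℚ_[p]))) (h3 : IsSquare (x * e1))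
    (h4 : IsSquare ((x - A) * e2)) :
    IsSquare ((x' * e1 : ℚ) : ℚ_[p]) ∧ IsSquare (((x' - (A * D : ℤ)) * e2 : ℚ) : ℚ_[p]) := by
  have hy2 : y ^ 2 ≠ 0 := pow_ne_zero 2 hy
  rw [hxy] at hy2
  have hx : x ≠ 0 := left_ne_zero_of_mul (left_ne_zero_of_mul hy2)
  have hxA : x - A ≠ 0 := right_ne_zero_of_mul (left_ne_zero_of_mul hy2)
  have h5 := sq_trans hx h1 h3
  have h6 := sq_trans hxA h2 h4
  constructor
  · rw [Rat.cast_mul, Rat.cast_intCast]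
    exact h5
  · rw [Rat.cast_mul, Rat.cast_intCast]
    exact h6

end

theorem locmp_of (h : RATP) : LOCMP := by
  intro c κ p hp A B hc3 hp2 hκ hA hB hAB hL x y hy hxy e1 e2 he1 he2 hs1 hs2
  obtain ⟨D, x', y', hD, hj, hy', hxy', h1, h2⟩ := h p A B x y hp2 hy hxy
  have hD0 : D ≠ 0 := by rintro rfl; exact hD (dvd_zero _)
  obtain ⟨h3, h4⟩ := transfer hy hxy h1 h2 hs1 hs2
  exact Pool.Agent.W571.RT.locm c κ p (A * D) (B * D) hc3 hp2 hκ (mul_ne_zero hA hD0)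
    (mul_ne_zero hB hD0) (fun h0 => hAB (mul_right_cancel₀ hD0 h0))
    (locM_mul hD hj hA hB hAB hL) x' y' hy' hxy' e1 e2 he1 he2 h3 h4

theorem loclp_of (h : RATP) : LOCLP := by
  intro c κ neg p hp A B hp2 hκ hL x y hy hxy e1 e2 he1 he2 hs1 hs2
  obtain ⟨D, x', y', hD, hj, hy', hxy', h1, h2⟩ := h p A B x y hp2 hy hxy
  obtain ⟨h3, h4⟩ := transfer hy hxy h1 h2 hs1 hs2
  exact Pool.Agent.W342.RK2.locl c κ neg p (A * D) (B * D) hp2 hκ (locH_mul hD hj hL) x' y' hy'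
    hxy' e1 e2 he1 he2 h3 h4

end Pool.Agent.W85.SE
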